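import Pool.Agent.Work.MP_bec1e1_FIN_h13.HUGB

/-!
# HUG: at most positions the optimal path crosses the cells in a window of typical width and content
-/

set_option autoImplicit false
set_option maxHeartbeats 400000

open Filter Topology
open scoped BigOperators

namespace Pool.Agent.LCSV

open Pool.Agent.LCSE

noncomputable section

variable {k : ℕ}

/-- the bad pairs -/
def bad2 (s A : ℕ) (μ : ℝ) (B : List (Fin k) → List (Fin k) → Prop) (u v : List (Fin k)) : Prop :=
  B u v ∨ Phi k ((A * s : ℕ) : ℝ) (v.length : ℝ) + μ * ((A * s : ℕ) : ℝ) < (L u v : ℝ)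

/-- the pointwise bound for one residue -/
lemma hug_pt (hP : PhiFacts k) {εD δ : ℝ} (hεD : 0 ≤ εD) (hδ : 0 < δ)
    (hDir : ∀ (T : ℕ) (s : ℝ) (c l : Fin T → ℝ), 0 < s → (∀ i, 0 ≤ c i) →
      (∀ i, l i ≤ s ∧ l i ≤ c i) →
      (∑ i, ind (Phi k s (c i) + δ * s < l i)) ≤ δ * T →
      al k * (s * T + ∑ i, c i) - δ * s * T ≤ ∑ i, l i → (rho k - δ) * s * T ≤ ∑ i, c i →
      (∑ i, ind (εD * s < |c i - rho k * s|)) ≤ εD * T ∧
      (∑ i, ind (l i < Phi k s (c i) - εD * s)) ≤ εD * T ∧
      (∑ i, ind (εD * s < |c i - rho k * s|) * c i) ≤ εD * s * T)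
    {s A r T e : ℕ} (hs : 0 < s) (hA : 1 ≤ A) (hT2 : 2 ≤ T) (hr : r ≤ A) (he : e ≤ A)
    {ε : ℝ} (hε : εD * A ≤ ε) (B : List (Fin k) → List (Fin k) → Prop)
    {x0 tl y : List (Fin k)} {Us : List (List (Fin k))} (hx0 : x0.length = r * s)
    (htl : tl.length = e * s) (hU : IsCells (A * s) T Us) {μ : ℝ} (hμ0 : 0 ≤ μ)
    (hT : 2 / (T : ℝ) ≤ μ) (hμ : μ ≤ al k * δ / 16)
    (hb : (rho k - δ / 4) * (((A * s : ℕ) : ℝ) * T) ≤ y.length) :
    ∑ i ∈ Finset.range T, ind (NoWin s A ε B
      ((x0 ++ (Us.flatten ++ tl)).take ((r + i * A) * s))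
      (((x0 ++ (Us.flatten ++ tl)).drop ((r + i * A) * s)).take (A * s))
      ((x0 ++ (Us.flatten ++ tl)).drop ((r + i * A + A) * s)) y) ≤
    (εD + 2 * μ) * T + (T * ind (CUe T (μ * ((T + 2 : ℕ) : ℝ)) (bad2 s A μ B) Us y) +
      T * ind ((L (x0 ++ (Us.flatten ++ tl)) y : ℝ) <
        al k * (((r + (T * A + e) : ℕ) : ℝ) * s + y.length) -
          μ * (((r + (T * A + e) : ℕ) : ℝ) * s))) := by
  have hTr : (0 : ℝ) < T := by
    have : 0 < T := by omega
    exact_mod_cast this
  have htriv : ∑ i ∈ Finset.range T, ind (NoWin s A ε B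
      ((x0 ++ (Us.flatten ++ tl)).take ((r + i * A) * s))
      (((x0 ++ (Us.flatten ++ tl)).drop ((r + i * A) * s)).take (A * s))
      ((x0 ++ (Us.flatten ++ tl)).drop ((r + i * A + A) * s)) y) ≤ T := by
    calc _ ≤ ∑ i ∈ Finset.range T, (1 : ℝ) := Finset.sum_le_sum fun i _ => ind_le_one _
      _ = T := by simp
  have h0 : 0 ≤ (εD + 2 * μ) * (T : ℝ) := by positivity
  by_cases h1 : CUe T (μ * ((T + 2 : ℕ) : ℝ)) (bad2 s A μ B) Us y
  · rw [ind_of h1]
    have := mul_nonneg hTr.le (ind_nonneg ((L (x0 ++ (Us.flatten ++ tl)) y : ℝ) <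
        al k * (((r + (T * A + e) : ℕ) : ℝ) * s + y.length) -
          μ * (((r + (T * A + e) : ℕ) : ℝ) * s)))
    linarith
  by_cases h2 : (L (x0 ++ (Us.flatten ++ tl)) y : ℝ) <
        al k * (((r + (T * A + e) : ℕ) : ℝ) * s + y.length) -
          μ * (((r + (T * A + e) : ℕ) : ℝ) * s)
  · rw [ind_of h2]
    have := mul_nonneg hTr.le (ind_nonneg (CUe T (μ * ((T + 2 : ℕ) : ℝ)) (bad2 s A μ B) Us y))
    linarith
  rw [ind_of_not h1, ind_of_not h2, mul_zero, add_zero, add_zero]
  obtain ⟨v0, v1, ws, hws, hy, hL⟩ := split_windows x0 tl Us y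
  have hUT : Us.length = T := hU.1
  have hwsT : ws.length = T := hws.trans hUT
  set D := A * s with hD
  have hD0 : 0 < D := Nat.mul_pos (by omega) hs
  have hDr : (0 : ℝ) < D := by exact_mod_cast hD0
  -- number of bad pairs
  have hbad : (List.zipWith (fun x v => ind (bad2 s A μ B x v)) Us ws).sum < μ * ((T + 2 : ℕ) : ℝ) := by
    by_contra hcon
    exact h1 ⟨v0, v1, ws, hwsT, hy, not_lt.mp hcon⟩
  have hT2r : (2 : ℝ) ≤ T := by exact_mod_cast hT2
  have hbad' : (List.zipWith (fun x v => ind (bad2 s A μ B x v)) Us ws).sum ≤ 2 * μ * T := by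
    push_cast at hbad
    nlinarith
  have hbadB : (List.zipWith (fun x v => ind (B x v)) Us ws).sum ≤ 2 * μ * T :=
    (TP.zipWith_sum_mono _ _ Us ws fun x _ v _ => ind_mono fun h => Or.inl h).trans hbad'
  have hbadP : (List.zipWith (fun x v => ind (Phi k D (v.length : ℝ) + μ * D < (L x v : ℝ)))
      Us ws).sum ≤ 2 * μ * T :=
    (TP.zipWith_sum_mono _ _ Us ws fun x _ v _ => ind_mono fun h => Or.inr h).trans hbad'
  have hs' : (0 : ℝ) ≤ s := Nat.cast_nonneg s
  have hcore := hug_core hP hδ hDir hD0 (show 0 < T by omega) (x0 := x0) (tl := tl) hwsT hU hy hL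
    (by rw [hx0]; exact Nat.mul_le_mul_right _ hr) (by rw [htl]; exact Nat.mul_le_mul_right _ he)
    (M := ((r + (T * A + e) : ℕ) : ℝ) * s) hμ0
    (by
      have : D * T ≤ (r + (T * A + e)) * s := by
        rw [hD]
        calc A * s * T = (T * A) * s := by ring
          _ ≤ _ := Nat.mul_le_mul_right _ (by omega)
      exact_mod_cast this)
    (by
      have : (r + (T * A + e)) * s ≤ 2 * (D * T) := by
        rw [hD]
        calc (r + (T * A + e)) * s ≤ (2 * (T * A)) * s := by
              apply Nat.mul_le_mul_right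
              have : 2 * A ≤ T * A := Nat.mul_le_mul_right _ hT2
              omega
          _ = _ := by ring
      exact_mod_cast this)
    (not_lt.mp h2) hbadP hb hT hμ
  rw [Finset.sum_range]
  have key : ∀ i : Fin T, ind (NoWin s A ε B
      ((x0 ++ (Us.flatten ++ tl)).take ((r + i * A) * s))
      (((x0 ++ (Us.flatten ++ tl)).drop ((r + i * A) * s)).take D)
      ((x0 ++ (Us.flatten ++ tl)).drop ((r + i * A + A) * s)) y) ≤
      ind (B (Us.get (i.cast hUT.symm)) (ws.get (i.cast hwsT.symm))) +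
      ind (εD * D < |(((ws.get (i.cast hwsT.symm)).length : ℕ) : ℝ) - rho k * D|) := by
    intro i
    apply ind_le_add
    intro hN
    by_contra hcon
    rw [not_or] at hcon
    obtain ⟨hc1, hc2⟩ := hcon
    have hi1 : (i : ℕ) < Us.length := by rw [hUT]; exact i.2
    have hi2 : (i : ℕ) < ws.length := by rw [hwsT]; exact i.2
    have eU : Us.get (i.cast hUT.symm) = Us[(i : ℕ)] := rfl
    have ew : ws.get (i.cast hwsT.symm) = ws[(i : ℕ)] := rfl
    rw [eU, ew] at hc1
    rw [ew] at hc2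
    have dU : Us = Us.take i ++ Us[(i : ℕ)] :: Us.drop (i + 1) := by
      rw [← List.drop_eq_getElem_cons hi1, List.take_append_drop]
    have dw : ws = ws.take i ++ ws[(i : ℕ)] :: ws.drop (i + 1) := by
      rw [← List.drop_eq_getElem_cons hi2, List.take_append_drop]
    have hlen : (Us.take i).length = (ws.take i).length := by
      rw [List.length_take, List.length_take, hUT, hwsT]
    have heq := window_eq hy hL dU dw hlen
    have hcells : IsCells D i (Us.take i) := by
      refine ⟨?_, fun w hw => hU.2 w (List.mem_of_mem_take hw)⟩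
      rw [List.length_take, hUT]
      exact Nat.min_eq_left i.2.le
    have hUi : (Us[(i : ℕ)]).length = D := hU.2 _ (List.getElem_mem _)
    have fU : Us.flatten = (Us.take i).flatten ++ (Us[(i : ℕ)] ++ (Us.drop (i + 1)).flatten) := by
      conv_lhs => rw [dU]
      rw [List.flatten_append, List.flatten_cons]
    have fw : ws.flatten = (ws.take i).flatten ++ (ws[(i : ℕ)] ++ (ws.drop (i + 1)).flatten) := by
      conv_lhs => rw [dw]
      rw [List.flatten_append, List.flatten_cons]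
    have hX : x0 ++ (Us.flatten ++ tl) = (x0 ++ (Us.take i).flatten) ++
        (Us[(i : ℕ)] ++ ((Us.drop (i + 1)).flatten ++ tl)) := by
      rw [fU]
      simp only [List.append_assoc]
    have hl1 : (x0 ++ (Us.take i).flatten).length = (r + i * A) * s := by
      rw [List.length_append, hx0, hcells.flatten_length, hD]; ring
    have hl2 : ((x0 ++ (Us.take i).flatten) ++ Us[(i : ℕ)]).length = (r + i * A + A) * s := by
      rw [List.length_append, hl1, hUi, hD]; ring
    have t1 : (x0 ++ (Us.flatten ++ tl)).take ((r + i * A) * s) = x0 ++ (Us.take i).flatten := by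
      rw [hX, List.take_left' hl1]
    have t2 : ((x0 ++ (Us.flatten ++ tl)).drop ((r + i * A) * s)).take D = Us[(i : ℕ)] := by
      rw [hX, List.drop_left' hl1, List.take_left' hUi]
    have t3 : (x0 ++ (Us.flatten ++ tl)).drop ((r + i * A + A) * s) =
        (Us.drop (i + 1)).flatten ++ tl := by
      rw [hX, ← List.append_assoc, List.drop_left' hl2]
    rw [t1, t2, t3] at hN
    apply hN
    have hY : y = (v0 ++ (ws.take i).flatten) ++
        (ws[(i : ℕ)] ++ ((ws.drop (i + 1)).flatten ++ v1)) := by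
      rw [← hy, fw]
      simp only [List.append_assoc]
    refine ⟨(v0 ++ (ws.take i).flatten).length, (ws[(i : ℕ)]).length, ?_, ?_, ?_, ?_⟩
    · have hYl := congrArg List.length hY
      simp only [List.length_append] at hYl ⊢
      omega
    · have := not_lt.mp hc2
      rw [hD] at this
      push_cast at this
      calc _ ≤ εD * (A * s) := this
        _ = εD * A * s := by ring
        _ ≤ _ := mul_le_mul_of_nonneg_right hε hs'
    · have : (y.drop (v0 ++ (ws.take i).flatten).length).take (ws[(i : ℕ)]).length = ws[(i : ℕ)] := by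
        conv_lhs => rw [hY]
        rw [List.drop_left' rfl, List.take_left' rfl]
      rw [this]
      exact hc1
    · have e1 : y.take (v0 ++ (ws.take i).flatten).length = v0 ++ (ws.take i).flatten := by
        conv_lhs => rw [hY]
        rw [List.take_left' rfl]
      have e2 : (y.drop (v0 ++ (ws.take i).flatten).length).take (ws[(i : ℕ)]).length =
          ws[(i : ℕ)] := by
        conv_lhs => rw [hY]
        rw [List.drop_left' rfl, List.take_left' rfl]
      have e3 : y.drop ((v0 ++ (ws.take i).flatten).length + (ws[(i : ℕ)]).length) =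
          (ws.drop (i + 1)).flatten ++ v1 := by
        conv_lhs => rw [hY]
        rw [← List.append_assoc, List.drop_left' (by rw [List.length_append])]
      rw [e1, e2, e3, ← heq, hX]
      simp only [List.append_assoc]
  calc _ ≤ ∑ i : Fin T, (ind (B (Us.get (i.cast hUT.symm)) (ws.get (i.cast hwsT.symm))) +
      ind (εD * D < |(((ws.get (i.cast hwsT.symm)).length : ℕ) : ℝ) - rho k * D|)) :=
        Finset.sum_le_sum fun i _ => key i
    _ = (List.zipWith (fun x v => ind (B x v)) Us ws).sum +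
        (List.zipWith (fun _ v => ind (εD * D < |((v.length : ℕ) : ℝ) - rho k * D|)) Us ws).sum := by
        rw [Finset.sum_add_distrib, TP.zipWith_sum_eq (fun x v => ind (B x v)) T Us ws hUT hwsT,
          TP.zipWith_sum_eq (fun (_ : List (Fin k)) (v : List (Fin k)) =>
            ind (εD * D < |((v.length : ℕ) : ℝ) - rho k * D|)) T Us ws hUT hwsT]
    _ ≤ 2 * μ * T + εD * T := add_le_add hbadB hcore
    _ = _ := by ring

/-- integration of the pointwise bound -/
lemma hug_int (hk : 0 < k) {s A r T e b : ℕ} {g : List (Fin k) → ℝ} (hg : IsDens k s g)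
    (G : ℕ → List (Fin k) → List (Fin k) → ℝ) (c P1 P2 : ℝ)
    (E1 : List (List (Fin k)) → List (Fin k) → Prop) (E2 : List (Fin k) → List (Fin k) → Prop)
    (hpt : ∀ (x0 tl y : List (Fin k)) (Us : List (List (Fin k))), x0.length = r * s →
      tl.length = e * s → IsCells (A * s) T Us → y.length = b →
      ∑ i ∈ Finset.range T, G i (x0 ++ (Us.flatten ++ tl)) y ≤
        c + (T * ind (E1 Us y) + T * ind (E2 (x0 ++ (Us.flatten ++ tl)) y)))
    (h1 : (Exc k (A * s) (gpow s A g) T fun Us => Ex k b fun y => ind (E1 Us y)) ≤ P1)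
    (h2 : (Exc k s g (r + (T * A + e)) fun xs => Ex k b fun y => ind (E2 xs.flatten y)) ≤ P2) :
    ∑ i ∈ Finset.range T, Exc k s g (r + (T * A + e)) (fun xs => Ex k b fun y =>
      G i xs.flatten y) ≤ c + T * (P1 + P2) := by
  have hgp := isDens_gpow (A := A) hg
  have hT : (0 : ℝ) ≤ T := Nat.cast_nonneg T
  have e1 : ∑ i ∈ Finset.range T, Exc k s g (r + (T * A + e)) (fun xs => Ex k b fun y =>
      G i xs.flatten y) = Exc k s g (r + (T * A + e)) (fun xs => (fun X => Ex k b fun y =>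
        ∑ i ∈ Finset.range T, G i X y) xs.flatten) := by
    rw [Exc_sum_comm]
    refine Exc_congr fun xs _ => ?_
    rw [← Ex_finset_sum]
  refine (le_of_eq (e1.trans (Exc_reg s A r T e g
    (fun X => Ex k b fun y => ∑ i ∈ Finset.range T, G i X y)))).trans ?_
  have e2 : (Exc k s g r fun x0 => Exc k (A * s) (gpow s A g) T fun Us => Exc k s g e fun tl =>
      Ex k b fun y => ind (E2 (x0.flatten ++ (Us.flatten ++ tl.flatten)) y)) ≤ P2 := by
    rw [← Exc_reg s A r T e g (fun X => Ex k b fun y => ind (E2 X y))]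
    exact h2
  calc _ ≤ Exc k s g r fun x0 => Exc k (A * s) (gpow s A g) T fun Us => Exc k s g e fun tl =>
      Ex k b fun y => (c + (T * ind (E1 Us y) +
        T * ind (E2 (x0.flatten ++ (Us.flatten ++ tl.flatten)) y))) := by
        refine Exc_mono hg.nonneg fun x0 hx => Exc_mono hgp.nonneg fun Us hU =>
          Exc_mono hg.nonneg fun tl ht => Ex_mono fun y hy => ?_
        exact hpt x0.flatten tl.flatten y Us hx.flatten_length ht.flatten_length hU hy
    _ = c + (T * (Exc k (A * s) (gpow s A g) T fun Us => Ex k b fun y => ind (E1 Us y)) +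
        T * Exc k s g r fun x0 => Exc k (A * s) (gpow s A g) T fun Us => Exc k s g e fun tl =>
      Ex k b fun y => ind (E2 (x0.flatten ++ (Us.flatten ++ tl.flatten)) y)) := by
        simp only [Ex_add, Exc_add, Ex_const hk, Exc_const hg.one, Exc_const hgp.one,
          Ex_const_mul, Exc_const_mul]
    _ ≤ _ := by
        have a1 := mul_le_mul_of_nonneg_left h1 hT
        have a2 := mul_le_mul_of_nonneg_left e2 hT
        linarith

/-- probability of a bad pair -/
lemma bad2_prob (hMCD : Stmt_MCD) (hk2 : 2 ≤ k) (hP : PhiFacts k) {s A j : ℕ} (hs : 0 < s)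
    (hA : 1 ≤ A) {η μ κ : ℝ} (hμ : 0 < μ) (hκ : 0 < κ) (hκ1 : κ ≤ η / (4 * A))
    (hκ2 : κ ≤ μ ^ 2 / (k + 1)) (hsκ : 1 ≤ κ * s)
    (Q : List (Fin k) → List (Fin k) → List (Fin k) → Prop)
    (hQ : ∀ w : ℕ, (w : ℝ) ≤ (rho k + 1) * (A * s) →
      (Ex k (j * s) fun r => Ex k (A * s) fun u => Ex k w fun v => ind (Q r u v)) ≤
        Real.exp (-(η * s))) (c : ℕ) :
    (Ex k (A * s) fun x => Ex k c fun v => ind (bad2 s A μ (bad1 s A j η Q) x v)) ≤
      Real.exp (-(κ * ((A * s : ℕ) : ℝ))) := by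
  have hD0 : 0 < A * s := Nat.mul_pos (by omega) hs
  have hAr : (1 : ℝ) ≤ A := by exact_mod_cast hA
  have hsr : (0 : ℝ) < s := by exact_mod_cast hs
  set x : ℝ := κ * ((A * s : ℕ) : ℝ) with hx
  have hx1 : 1 ≤ x := by
    rw [hx]; push_cast
    have : κ * (s : ℝ) * 1 ≤ κ * s * A := mul_le_mul_of_nonneg_left hAr (by positivity)
    nlinarith
  -- first kind
  have h1 : (Ex k (A * s) fun u => Ex k c fun v => ind (bad1 s A j η Q u v)) ≤
      Real.exp (-(2 * x)) := by
    have h2 : Real.exp (-(η / 2 * s)) ≤ Real.exp (-(2 * x)) := by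
      apply Real.exp_le_exp.mpr
      rw [hx]; push_cast
      rw [le_div_iff₀ (by positivity)] at hκ1
      nlinarith
    refine le_trans ?_ h2
    by_cases hc : (c : ℝ) ≤ (rho k + 1) * (A * s)
    · have h3 : (Ex k (A * s) fun u => Ex k c fun v => ind (bad1 s A j η Q u v)) ≤
          Ex k (A * s) fun u => Ex k c fun v =>
            (Ex k (j * s) fun r => ind (Q r u v)) * Real.exp (η / 2 * s) := by
        refine Ex_mono fun u _ => Ex_mono fun v _ => ?_
        have h4 : 0 ≤ Ex k (j * s) fun r => ind (Q r u v) := Ex_ind_nonneg _ _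
        by_cases hb : bad1 s A j η Q u v
        · rw [ind_of hb]
          have h5 := hb.2
          have h6 : Real.exp (-(η / 2 * s)) * Real.exp (η / 2 * s) = 1 := by
            rw [← Real.exp_add]; simp
          rw [← h6]
          exact mul_le_mul_of_nonneg_right h5.le (Real.exp_pos _).le
        · rw [ind_of_not hb]; positivity
      refine h3.trans ?_
      have h4 : (Ex k (A * s) fun u => Ex k c fun v =>
            (Ex k (j * s) fun r => ind (Q r u v)) * Real.exp (η / 2 * s)) =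
          (Ex k (j * s) fun r => Ex k (A * s) fun u => Ex k c fun v => ind (Q r u v)) *
            Real.exp (η / 2 * s) := by
        simp only [Ex_mul_const]
        congr 1
        rw [Ex_comm (j * s) (A * s)]
        refine Ex_congr fun u _ => ?_
        rw [Ex_comm (j * s) c]
      rw [h4]
      calc _ ≤ Real.exp (-(η * s)) * Real.exp (η / 2 * s) :=
            mul_le_mul_of_nonneg_right (hQ c hc) (Real.exp_pos _).le
        _ = Real.exp (-(η / 2 * s)) := by rw [← Real.exp_add]; congr 1; ring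
    · have h3 : (Ex k (A * s) fun u => Ex k c fun v => ind (bad1 s A j η Q u v)) =
          Ex k (A * s) fun _ => (0 : ℝ) := by
        refine Ex_congr fun u _ => ?_
        rw [← Ex_zero_fun (k := k) c]
        refine Ex_congr fun v hv => ind_of_not fun hb => hc ?_
        rw [← hv]
        exact hb.1
      rw [h3, Ex_zero_fun]
      exact (Real.exp_pos _).le
  have h2 : (Ex k (A * s) fun u => Ex k c fun v =>
      ind (Phi k ((A * s : ℕ) : ℝ) (c : ℝ) + μ * ((A * s : ℕ) : ℝ) < (L u v : ℝ))) ≤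
      Real.exp (-(2 * x)) := by
    refine (TP.upper_dev hMCD hk2 hP hμ hD0 c).trans ?_
    apply Real.exp_le_exp.mpr
    rw [hx]
    have h3 : 2 * μ ^ 2 / ((k : ℝ) + 1) = 2 * (μ ^ 2 / (k + 1)) := by ring
    rw [h3]
    have h4 : κ * ((A * s : ℕ) : ℝ) ≤ μ ^ 2 / (k + 1) * ((A * s : ℕ) : ℝ) :=
      mul_le_mul_of_nonneg_right hκ2 (Nat.cast_nonneg _)
    nlinarith
  have h3 : (Ex k (A * s) fun x => Ex k c fun v => ind (bad2 s A μ (bad1 s A j η Q) x v)) ≤
      (Ex k (A * s) fun u => Ex k c fun v => ind (bad1 s A j η Q u v)) +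
      (Ex k (A * s) fun u => Ex k c fun v =>
        ind (Phi k ((A * s : ℕ) : ℝ) (c : ℝ) + μ * ((A * s : ℕ) : ℝ) < (L u v : ℝ))) := by
    rw [← Ex_add]
    refine Ex_mono fun u _ => ?_
    rw [← Ex_add]
    refine Ex_mono fun v hv => ind_le_add ?_
    rintro (h | h)
    · exact Or.inl h
    · right; rwa [hv] at h
  have h4 : 2 * Real.exp (-(2 * x)) ≤ Real.exp (-x) := by
    have h7 : Real.exp (-(2 * x)) = Real.exp (-x) * Real.exp (-x) := by
      rw [← Real.exp_add]; congr 1; ring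
    have h8 : 2 * Real.exp (-x) ≤ 1 := by
      rw [Real.exp_neg]
      have h9 : 2 ≤ Real.exp x := by
        have h10 := Real.add_one_le_exp x
        linarith
      rw [← div_eq_mul_inv, div_le_one (Real.exp_pos _)]
      exact h9
    rw [h7]
    nlinarith [Real.exp_pos (-x)]
  linarith

/-- one position: resampling of the inserted cells, and regrouping -/
lemma hug_term {s A j N b p : ℕ} {g : List (Fin k) → ℝ} (hg : IsDens k s g)
    (hg2 : ∀ w, w.length = s → g w ≤ 2) {ε η : ℝ} (hε : ε ≤ 1) (hA : 1 ≤ A) (hk : 0 < k)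
    (Q : List (Fin k) → List (Fin k) → List (Fin k) → Prop) (hp : p + A ≤ N) :
    (Exc k s g p fun xs₁ => Exc k s g j fun rs => Exc k s g A fun us =>
      Exc k s g (N - A - p) fun xs₂ => Ex k b fun y =>
        ind (NoWin s A ε (fun u v => Q rs.flatten u v) xs₁.flatten us.flatten xs₂.flatten y)) ≤
    (Exc k s g N fun xs => Ex k b fun y => ind (NoWin s A ε (bad1 s A j η Q)
      (xs.flatten.take (p * s)) ((xs.flatten.drop (p * s)).take (A * s))
      (xs.flatten.drop ((p + A) * s)) y)) + 2 ^ j * Real.exp (-(η / 2 * s)) := by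
  have e1 : (Exc k s g p fun xs₁ => Exc k s g j fun rs => Exc k s g A fun us =>
      Exc k s g (N - A - p) fun xs₂ => Ex k b fun y =>
        ind (NoWin s A ε (fun u v => Q rs.flatten u v) xs₁.flatten us.flatten xs₂.flatten y)) =
      Exc k s g p fun xs₁ => Exc k s g A fun us => Exc k s g (N - A - p) fun xs₂ =>
        Ex k b fun y => Exc k s g j fun rs =>
        ind (NoWin s A ε (fun u v => Q rs.flatten u v) xs₁.flatten us.flatten xs₂.flatten y) := by
    refine Exc_congr fun xs₁ _ => ?_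
    rw [Exc_comm]
    refine Exc_congr fun us _ => ?_
    rw [Exc_comm]
    refine Exc_congr fun xs₂ _ => ?_
    rw [← Ex_Exc_comm]
  rw [e1]
  have e2 := Exc_three (k := k) s p A (N - A - p) g (fun X₁ u X₂ => Ex k b fun y =>
    ind (NoWin s A ε (bad1 s A j η Q) X₁ u X₂ y))
  rw [show p + (A + (N - A - p)) = N by omega] at e2
  rw [← e2]
  calc _ ≤ Exc k s g p fun xs₁ => Exc k s g A fun us => Exc k s g (N - A - p) fun xs₂ =>
        Ex k b fun y => (ind (NoWin s A ε (bad1 s A j η Q) xs₁.flatten us.flatten xs₂.flatten y) +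
          2 ^ j * Real.exp (-(η / 2 * s))) := by
        refine Exc_mono hg.nonneg fun xs₁ _ => Exc_mono hg.nonneg fun us _ =>
          Exc_mono hg.nonneg fun xs₂ _ => Ex_mono fun y _ => ?_
        exact hug_step0 hg hg2 hε hA Q _ _ _ _
    _ = _ := by
        simp only [Ex_add, Exc_add, Ex_const hk, Exc_const hg.one]

/-- density of big cells -/
lemma gpow_gth_le (hk2 : 2 ≤ k) {s A : ℕ} (hA : 1 ≤ A) {o : Fin k} {θ : ℝ} (h0 : 0 ≤ θ)
    (hθ : θ ≤ thm k s) (hkp : 1 / (k : ℝ) ^ s ≤ 1 / A) {W : List (Fin k)}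
    (hW : W.length = A * s) : gpow s A (gth k s o θ) W ≤ 2 := by
  have hA0 : (0 : ℝ) < A := by exact_mod_cast hA
  have hg := isDens_gth hk2 s o h0 hθ
  have h3 : gpow s A (gth k s o θ) W ≤ (1 + θ) ^ A :=
    gpow_le (by linarith) hg.nonneg (fun w _ => gth_le h0 w) hW
  have h4 : (1 + θ) ^ A ≤ Real.exp (A * θ) := by
    rw [Real.exp_nat_mul]
    apply pow_le_pow_left₀ (by linarith)
    linarith [Real.add_one_le_exp θ]
  have h5 : A * θ ≤ 1 / 2 := by
    have h6 : θ ≤ 1 / A / 2 := by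
      refine hθ.trans ?_
      unfold thm
      have : 1 / (2 * (k : ℝ) ^ s) = 1 / (k : ℝ) ^ s / 2 := by
        rw [div_div, mul_comm]
      rw [this]
      linarith
    calc (A : ℝ) * θ ≤ A * (1 / A / 2) := mul_le_mul_of_nonneg_left h6 hA0.le
      _ = 1 / 2 := by field_simp
  have h6 : Real.exp (1 / 2) ≤ 2 := by
    have h7 : Real.exp (1 / 2) ^ 2 = Real.exp 1 := by
      rw [← Real.exp_nat_mul]; norm_num
    have h8 := Real.exp_one_lt_d9
    have h9 := Real.exp_pos (1 / 2)
    nlinarith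
  calc _ ≤ _ := h3
    _ ≤ _ := h4
    _ ≤ Real.exp (1 / 2) := Real.exp_le_exp.mpr h5
    _ ≤ 2 := h6

/-- number of columns -/
lemma col_bound {c ρ δ A T J s N K : ℝ} (hc0 : 0 ≤ c) (hcK : c ≤ K) (hcδ : ρ - δ / 4 ≤ c - δ / 8)
    (hN : A * T - J ≤ N) (hTJ : K * J ≤ δ / 8 * T) (hA : 1 ≤ A) (hT : 0 ≤ T) (hs : 0 ≤ s)
    (hJ : 0 ≤ J) : (ρ - δ / 4) * (A * s * T) ≤ c * (N * s) := by
  have hδT : 0 ≤ δ / 8 * T := le_trans (mul_nonneg (hc0.trans hcK) hJ) hTJ
  have h3 : (A * T - J) * s ≤ N * s := mul_le_mul_of_nonneg_right hN hs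
  have h4 : c * ((A * T - J) * s) ≤ c * (N * s) := mul_le_mul_of_nonneg_left h3 hc0
  have h5 : c * (J * s) ≤ δ / 8 * (A * T * s) := by
    calc c * (J * s) ≤ K * (J * s) := mul_le_mul_of_nonneg_right hcK (by positivity)
      _ = K * J * s := by ring
      _ ≤ δ / 8 * T * s := mul_le_mul_of_nonneg_right hTJ hs
      _ = 1 * (δ / 8 * T * s) := by ring
      _ ≤ A * (δ / 8 * T * s) := mul_le_mul_of_nonneg_right hA (mul_nonneg hδT hs)
      _ = _ := by ring
  have h6 : (ρ - δ / 4) * (A * s * T) ≤ (c - δ / 8) * (A * s * T) :=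
    mul_le_mul_of_nonneg_right hcδ (by positivity)
  nlinarith

lemma hug_nat {A N r : ℕ} (hA : 1 ≤ A) (hr : r < A) (hAN : A ≤ N) :
    r + ((N - r) / A * A + (N - r) % A) = N ∧ N ≤ A * ((N - r) / A + 2) ∧ (N - r) % A < A := by
  have hmod := Nat.mod_add_div (N - r) A
  have hmodlt : (N - r) % A < A := Nat.mod_lt _ hA
  have h1 : A * ((N - r) / A) = (N - r) / A * A := mul_comm _ _
  have h2 : A * ((N - r) / A + 2) = (N - r) / A * A + 2 * A := by ring
  refine ⟨by omega, by omega, hmodlt⟩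

/-- one residue -/
lemma hug_residue (hk2 : 2 ≤ k) (hP : PhiFacts k) {εD δ : ℝ} (hεD : 0 ≤ εD) (hδ : 0 < δ)
    (hDir : ∀ (T : ℕ) (s : ℝ) (c l : Fin T → ℝ), 0 < s → (∀ i, 0 ≤ c i) →
      (∀ i, l i ≤ s ∧ l i ≤ c i) →
      (∑ i, ind (Phi k s (c i) + δ * s < l i)) ≤ δ * T →
      al k * (s * T + ∑ i, c i) - δ * s * T ≤ ∑ i, l i → (rho k - δ) * s * T ≤ ∑ i, c i →
      (∑ i, ind (εD * s < |c i - rho k * s|)) ≤ εD * T ∧
      (∑ i, ind (l i < Phi k s (c i) - εD * s)) ≤ εD * T ∧
      (∑ i, ind (εD * s < |c i - rho k * s|) * c i) ≤ εD * s * T)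
    {s A r T e b : ℕ} (hs : 0 < s) (hA : 1 ≤ A) (hT2 : 2 ≤ T) (hr : r ≤ A) (he : e ≤ A)
    {ε : ℝ} (hε : εD * A ≤ ε) {g : List (Fin k) → ℝ} (hg : IsDens k s g)
    (B : List (Fin k) → List (Fin k) → Prop) {μ : ℝ} (hμ0 : 0 ≤ μ)
    (hT : 2 / (T : ℝ) ≤ μ) (hμ : μ ≤ al k * δ / 16)
    (hb : (rho k - δ / 4) * (((A * s : ℕ) : ℝ) * T) ≤ b)
    (hcu : (Exc k (A * s) (gpow s A g) (T + 2) fun xs => Ex k b fun y =>
      ind (∃ vs : List (List (Fin k)), vs.length = T + 2 ∧ vs.flatten = y ∧
      μ * ((T + 2 : ℕ) : ℝ) ≤ (List.zipWith (fun x v => ind (bad2 s A μ B x v)) xs vs).sum)) ≤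
        Real.exp (-((T + 2 : ℕ) : ℝ)))
    (hlow : (Exc k s g (r + (T * A + e)) fun xs => Ex k b fun y =>
      ind ((L xs.flatten y : ℝ) < al k * (((r + (T * A + e) : ℕ) : ℝ) * s + b) -
          μ * (((r + (T * A + e) : ℕ) : ℝ) * s))) ≤ μ) :
    ∑ i ∈ Finset.range T, Exc k s g (r + (T * A + e)) (fun xs => Ex k b fun y =>
      ind (NoWin s A ε B (xs.flatten.take ((r + i * A) * s))
        ((xs.flatten.drop ((r + i * A) * s)).take (A * s))
        (xs.flatten.drop ((r + i * A + A) * s)) y)) ≤ (εD + 4 * μ) * T := by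
  have hk : 0 < k := by omega
  have hTr : (0 : ℝ) < T := by
    have : 0 < T := by omega
    exact_mod_cast this
  have hcu1 : (Exc k (A * s) (gpow s A g) T fun Us => Ex k b fun y =>
      ind (CUe T (μ * ((T + 2 : ℕ) : ℝ)) (bad2 s A μ B) Us y)) ≤ μ := by
    refine (cu_ends (isDens_gpow hg) _ _ hcu).trans ?_
    refine (exp_neg_le_inv (by positivity)).trans ?_
    refine le_trans ?_ hT
    push_cast
    rw [div_le_div_iff₀ (by positivity) hTr]
    linarith
  have hint := hug_int (A := A) (r := r) (T := T) (e := e) (b := b) hk hg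
    (fun i X y => ind (NoWin s A ε B (X.take ((r + i * A) * s))
      ((X.drop ((r + i * A) * s)).take (A * s)) (X.drop ((r + i * A + A) * s)) y))
    ((εD + 2 * μ) * T) μ μ
    (fun Us y => CUe T (μ * ((T + 2 : ℕ) : ℝ)) (bad2 s A μ B) Us y)
    (fun X y => (L X y : ℝ) < al k * (((r + (T * A + e) : ℕ) : ℝ) * s + b) -
          μ * (((r + (T * A + e) : ℕ) : ℝ) * s))
    (by
      intro x0 tl y Us hx0 htl hU hy
      have := hug_pt hP hεD hδ hDir hs hA hT2 hr he hε B hx0 htl hU hμ0 hT hμ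
        (y := y) (by rw [hy]; exact hb)
      rw [hy] at this
      exact this)
    hcu1 hlow
  refine hint.trans ?_
  nlinarith

theorem stmt_HUG (hBB : Stmt_BB) (hLOW : Stmt_LOW) (hCU : Stmt_CU) (hDIR : Stmt_DIR)
    (hMCD : Stmt_MCD) : Stmt_HUG := by
  intro k C p q Pl Pu w ε hε A hA j J η hη
  have hk2 := w.hk
  have hk : 0 < k := by omega
  have hkr : (0 : ℝ) < k := by exact_mod_cast hk
  have hP := w.phi
  have hal0 : 0 < al k := by
    have := hP.gam_pos
    unfold al; linarith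
  have hrho := hP.rho_one
  have hrhok := hP.rho_lt
  have hAr : (1 : ℝ) ≤ A := by exact_mod_cast hA
  have hA0 : (0 : ℝ) < A := by linarith
  set ε' := min ε 1 with hε'
  have hε'0 : 0 < ε' := lt_min hε one_pos
  have hε'1 : ε' ≤ 1 := min_le_right _ _
  have hε'ε : ε' ≤ ε := min_le_left _ _
  set εD := ε' / (8 * A) with hεD
  have hεD0 : 0 < εD := by positivity
  have hεDA : εD * A = ε' / 8 := by rw [hεD]; field_simp
  have hεD1 : εD ≤ ε' / 8 := by
    rw [← hεDA]
    nlinarith
  obtain ⟨δ, hδ, hDir⟩ := hDIR k hk2 hP εD hεD0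
  set μ := min (al k * δ / 16) (ε' / 16) with hμ
  have hμ0 : 0 < μ := lt_min (by positivity) (by positivity)
  set κ := min (η / (4 * A)) (μ ^ 2 / (k + 1)) with hκ
  have hκ0 : 0 < κ := lt_min (by positivity) (by positivity)
  set εb := min (δ / 8) (1 / 2) with hεb
  have hεb0 : 0 < εb := lt_min (by positivity) (by norm_num)
  set M₁ : ℝ := 2 + 2 / μ + 8 * k * J / δ with hM₁
  have hM₁0 : 0 < M₁ := by positivity
  have hM₁T : ∀ T : ℕ, M₁ ≤ (T : ℝ) → 2 ≤ T ∧ 2 / (T : ℝ) ≤ μ ∧ (k : ℝ) * J ≤ δ / 8 * T := by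
    intro T hTM
    have a1 : 0 < 2 / μ := by positivity
    have a2 : 0 ≤ 8 * k * J / δ := by positivity
    have hT2 : (2 : ℝ) ≤ T := by linarith
    have hTr : (0 : ℝ) < T := by linarith
    refine ⟨by exact_mod_cast hT2, ?_, ?_⟩
    · have h3 : 2 / μ ≤ T := by linarith
      rw [div_le_iff₀ hμ0] at h3
      rw [div_le_iff₀ hTr]
      linarith
    · have h3 : 8 * k * J / δ ≤ T := by linarith
      rw [div_le_iff₀ hδ] at h3
      linarith
  have hCUs := hCU μ κ hμ0 hκ0 (2 * k)
  have htend : Tendsto (fun s : ℕ => A * s) atTop atTop :=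
    Filter.tendsto_atTop_mono (fun s => Nat.le_mul_of_pos_left s hA) tendsto_id
  have hCUs' := htend.eventually hCUs
  have hexp : ∀ᶠ s : ℕ in atTop, 2 ^ j * Real.exp (-(η / 2 * s)) ≤ ε' / 4 := by
    filter_upwards [eventually_ge_atTop (max 1 ⌈2 ^ j * 8 / (η * ε')⌉₊)] with s hs
    have hs1 : 1 ≤ s := (le_max_left _ _).trans hs
    have hs1r : (1 : ℝ) ≤ s := by exact_mod_cast hs1
    have h1 : 2 ^ j * 8 / (η * ε') ≤ (s : ℝ) := by
      calc 2 ^ j * 8 / (η * ε') ≤ (⌈2 ^ j * 8 / (η * ε')⌉₊ : ℝ) := Nat.le_ceil _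
        _ ≤ s := by exact_mod_cast (le_max_right _ _).trans hs
    have h2 : Real.exp (-(η / 2 * s)) ≤ 1 / (η / 2 * s) := exp_neg_le_inv (by positivity)
    have h3 : (2 : ℝ) ^ j * Real.exp (-(η / 2 * s)) ≤ 2 ^ j * (1 / (η / 2 * s)) :=
      mul_le_mul_of_nonneg_left h2 (by positivity)
    refine h3.trans ?_
    rw [div_le_iff₀ (by positivity)] at h1
    have h4 : (2 : ℝ) ^ j * (1 / (η / 2 * s)) = 2 ^ j * 8 / (4 * (η * s)) := by
      field_simp; ring
    rw [h4, div_le_div_iff₀ (by positivity) (by norm_num)]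
    nlinarith
  filter_upwards [hBB k hk2 hP εb hεb0, hLOW k C p q Pl Pu w μ hμ0 J, hCUs', hexp,
    tendsto_NN hk2 (A * (M₁ + 3) + 2 * J), tendsto_kpow hk2 (show 0 < 1 / (A : ℝ) by positivity),
    eventually_ge_atTop (max 1 ⌈1 / κ⌉₊)] with s hb hlow hcu hexps hNN hkp hs
  obtain ⟨-, hb2, hb3, -, -⟩ := hb
  intro o θ h0 hθ N h1 h2 Q hQ
  have hs1 : 1 ≤ s := (le_max_left _ _).trans hs
  have hsr : (1 : ℝ) ≤ s := by exact_mod_cast hs1
  have hs0 : (0 : ℝ) < s := by linarith
  have hsκ : 1 ≤ κ * s := by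
    have h3 : 1 / κ ≤ (s : ℝ) := by
      calc 1 / κ ≤ (⌈1 / κ⌉₊ : ℝ) := Nat.le_ceil _
        _ ≤ s := by exact_mod_cast (le_max_right _ _).trans hs
    rw [div_le_iff₀ hκ0] at h3
    linarith
  have hg := isDens_gth hk2 s o h0 hθ
  have hg2 : ∀ w : List (Fin k), w.length = s → gth k s o θ w ≤ 2 := fun w _ =>
    gth_le_two hk2 s o h0 hθ w
  have h1r : (NN k s : ℝ) ≤ N + J := by exact_mod_cast h1
  have h2r : (N : ℝ) ≤ NN k s + J := by exact_mod_cast h2
  have hJ0 : (0 : ℝ) ≤ J := Nat.cast_nonneg J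
  have hNbig : A * (M₁ + 3) + J ≤ (N : ℝ) := by linarith
  have hNJ : (J : ℝ) ≤ N := by
    have : 0 < (A : ℝ) * (M₁ + 3) := by positivity
    linarith
  have hN0 : (0 : ℝ) < N := by
    have : 0 < (A : ℝ) * (M₁ + 3) := by positivity
    linarith
  -- density of big cells
  have hgp := isDens_gpow (A := A) hg
  have hgp2 : ∀ W : List (Fin k), W.length = A * s → gpow s A (gth k s o θ) W ≤ 2 :=
    fun W hW => gpow_gth_le hk2 hA h0 hθ hkp hW
  set g := gth k s o θ with hgdef
  set E1 : ℝ := 2 ^ j * Real.exp (-(η / 2 * s)) with hE1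
  set G : ℕ → List (Fin k) → List (Fin k) → ℝ := fun m X y =>
    ind (NoWin s A ε' (bad1 s A j η Q) (X.take (m * s)) ((X.drop (m * s)).take (A * s))
      (X.drop ((m + A) * s)) y) with hG
  have hAN : A ≤ N := by
    have : (A : ℝ) ≤ N := by
      have : (A : ℝ) * 1 ≤ A * (M₁ + 3) := mul_le_mul_of_nonneg_left (by linarith) hA0.le
      linarith
    exact_mod_cast this
  -- residues
  have hres : ∀ r ∈ Finset.range A, ∑ i ∈ Finset.range ((N - r) / A),
      Exc k s g N (fun xs => Ex k (bb k s) fun y => G (r + i * A) xs.flatten y) ≤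
      (εD + 4 * μ) * (((N - r) / A : ℕ) : ℝ) := by
    intro r hr
    rw [Finset.mem_range] at hr
    obtain ⟨hNsum, hNT, he⟩ := hug_nat hA hr hAN
    generalize (N - r) / A = T at hNsum hNT ⊢
    generalize (N - r) % A = e at hNsum he
    have hNTr : (N : ℝ) ≤ A * (T + 2) := by exact_mod_cast hNT
    have hTM : M₁ ≤ (T : ℝ) := by
      have h4 : (A : ℝ) * (M₁ + 3) ≤ A * (T + 2) := by linarith
      have := le_of_mul_le_mul_left h4 hA0
      linarith
    obtain ⟨hT2, hTμ, hTJ⟩ := hM₁T T hTM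
    have hT2r : (2 : ℝ) ≤ T := by exact_mod_cast hT2
    have hTr : (0 : ℝ) < T := by linarith
    have hATN : (A : ℝ) * T ≤ N := by
      have : A * T ≤ N := by
        have : A * T = T * A := mul_comm _ _
        omega
      exact_mod_cast this
    -- number of columns
    have hcol : (rho k - δ / 4) * (((A * s : ℕ) : ℝ) * T) ≤ bb k s := by
      refine le_trans ?_ hb3
      have := col_bound (c := rho k - εb) (ρ := rho k) (δ := δ) (A := A) (T := T) (J := J)
        (s := s) (N := NN k s) (K := k) (by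
          have : εb ≤ 1 / 2 := min_le_right _ _
          linarith) (by linarith) (by
          have : εb ≤ δ / 8 := min_le_left _ _
          linarith) (by linarith) hTJ hAr hTr.le hs0.le hJ0
      push_cast
      linarith
    have hVb : bb k s ≤ 2 * k * (A * s) * (T + 2) := by
      have h3 : (bb k s : ℝ) ≤ ((2 * k * (A * s) * (T + 2) : ℕ) : ℝ) := by
        push_cast
        refine hb2.trans ?_
        have h4 : rho k * (NN k s * s) ≤ k * (2 * N * s) := by
          apply mul_le_mul hrhok.le _ (by positivity) hkr.le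
          exact mul_le_mul_of_nonneg_right (by linarith) hs0.le
        have h6 : (k : ℝ) * (2 * N * s) ≤ k * (2 * (A * (T + 2)) * s) := by
          apply mul_le_mul_of_nonneg_left _ hkr.le
          apply mul_le_mul_of_nonneg_right _ hs0.le
          linarith
        calc _ ≤ _ := h4
          _ ≤ _ := h6
          _ = _ := by ring
      exact_mod_cast h3
    have h3 := hcu k (gpow s A g) (bad2 s A μ (bad1 s A j η Q)) hk hgp hgp2
      (bad2_prob hMCD hk2 hP (show 0 < s by omega) hA hμ0 hκ0 (min_le_left _ _)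
        (min_le_right _ _) hsκ Q hQ) (T + 2) (bb k s) (by omega) hVb
    have h4 := hlow o θ h0 hθ N h1 h2
    have h5 := hug_residue hk2 hP hεD0.le hδ hDir (r := r) (e := e) (show 0 < s by omega) hA hT2
      hr.le he.le (ε := ε') (by rw [hεDA]; linarith) hg (bad1 s A j η Q) hμ0.le hTμ
      (min_le_left _ _) hcol h3 (by rw [hNsum]; exact h4)
    rw [hNsum] at h5
    exact h5
  -- sum over the positions
  have hmain : ∑ p ∈ Finset.range (N + 1 - A),
      Exc k s g N (fun xs => Ex k (bb k s) fun y => G p xs.flatten y) ≤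
      (εD + 4 * μ) * ((N + 1 - A : ℕ) : ℝ) := by
    rw [sum_pos _ hA N]
    have h3 := sum_pos (fun _ => (1 : ℝ)) hA N
    simp only [Finset.sum_const, Finset.card_range, nsmul_eq_mul, mul_one] at h3
    rw [h3, Finset.mul_sum]
    exact Finset.sum_le_sum hres
  have hle : ((N + 1 - A : ℕ) : ℝ) ≤ N + 1 := by
    have : N + 1 - A ≤ N + 1 := Nat.sub_le _ _
    exact_mod_cast this
  have hle0 : (0 : ℝ) ≤ ((N + 1 - A : ℕ) : ℝ) := Nat.cast_nonneg _
  calc (∑ p ∈ Finset.range (N + 1 - A), Exc k s g p fun xs₁ =>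
    Exc k s g j fun rs => Exc k s g A fun us =>
    Exc k s g (N - A - p) fun xs₂ => Ex k (bb k s) fun y =>
      ind (¬ ∃ g w : ℕ, g + w ≤ y.length ∧ |(w : ℝ) - rho k * (A * s)| ≤ ε * s ∧
        ¬ Q rs.flatten us.flatten ((y.drop g).take w) ∧
        L (xs₁.flatten ++ us.flatten ++ xs₂.flatten) y = L xs₁.flatten (y.take g) +
          L us.flatten ((y.drop g).take w) + L xs₂.flatten (y.drop (g + w))))
      ≤ ∑ p ∈ Finset.range (N + 1 - A), Exc k s g p fun xs₁ =>
        Exc k s g j fun rs => Exc k s g A fun us =>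
        Exc k s g (N - A - p) fun xs₂ => Ex k (bb k s) fun y =>
          ind (NoWin s A ε' (fun u v => Q rs.flatten u v) xs₁.flatten us.flatten
            xs₂.flatten y) := by
        refine Finset.sum_le_sum fun p _ => Exc_mono hg.nonneg fun xs₁ _ =>
          Exc_mono hg.nonneg fun rs _ => Exc_mono hg.nonneg fun us _ =>
          Exc_mono hg.nonneg fun xs₂ _ => Ex_mono fun y _ => ind_mono fun h hcon => h ?_
        obtain ⟨g', w', a1, a2, a3, a4⟩ := hcon
        exact ⟨g', w', a1, a2.trans (mul_le_mul_of_nonneg_right hε'ε hs0.le), a3, a4⟩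
    _ ≤ ∑ p ∈ Finset.range (N + 1 - A),
        ((Exc k s g N fun xs => Ex k (bb k s) fun y => G p xs.flatten y) + E1) := by
        refine Finset.sum_le_sum fun p hp => ?_
        rw [Finset.mem_range] at hp
        exact hug_term hg hg2 hε'1 hA hk Q (by omega)
    _ = (∑ p ∈ Finset.range (N + 1 - A),
        Exc k s g N fun xs => Ex k (bb k s) fun y => G p xs.flatten y) +
          ((N + 1 - A : ℕ) : ℝ) * E1 := by
        rw [Finset.sum_add_distrib]
        simp
    _ ≤ (εD + 4 * μ) * ((N + 1 - A : ℕ) : ℝ) + ((N + 1 - A : ℕ) : ℝ) * (ε' / 4) := by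
        have := mul_le_mul_of_nonneg_left hexps hle0
        linarith
    _ ≤ ε' * ((N + 1 - A : ℕ) : ℝ) := by
        have h3 : μ ≤ ε' / 16 := min_le_right _ _
        have h4 : (εD + 4 * μ) + ε' / 4 ≤ ε' := by linarith
        have := mul_le_mul_of_nonneg_right h4 hle0
        linarith
    _ ≤ ε * (N + 1) := mul_le_mul hε'ε hle hle0 hε.le

end

end Pool.Agent.LCSV
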