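import Pool.Agent.Work.MP_bec1e1_FIN_h13.LOW

/-!
# HUG, part A: regrouping of cells, windows of an optimal path
-/

set_option autoImplicit false
set_option maxHeartbeats 400000

open Filter Topology
open scoped BigOperators

namespace Pool.Agent.LCSV

open Pool.Agent.LCSE

noncomputable section

variable {k : ℕ}

/-! ### big cells -/

/-- density of a big cell of `A` cells -/
def gpow (s A : ℕ) (g : List (Fin k) → ℝ) (W : List (Fin k)) : ℝ := ((cellsOf s A W).map g).prod

lemma Exc_cells_word (s A : ℕ) (g : List (Fin k) → ℝ) (φ : List (Fin k) → ℝ) :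
    Exc k s g A (fun xs => φ xs.flatten) = Ex k (A * s) fun W => gpow s A g W * φ W := by
  rw [Exc_eq_Exs, ← Exs_cellsOf]
  refine Ex_congr fun W hW => ?_
  rw [flatten_cellsOf hW]
  rfl

lemma Exc_regroup (s A : ℕ) (g : List (Fin k) → ℝ) (T : ℕ) (ψ : List (Fin k) → ℝ) :
    Exc k s g (T * A) (fun ms => ψ ms.flatten) =
      Exc k (A * s) (gpow s A g) T (fun Us => ψ Us.flatten) := by
  induction T generalizing ψ with
  | zero => simp
  | succ T ih =>
    rw [show (T + 1) * A = A + T * A by ring, Exc_append, Exc_succ]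
    have h1 : (Exc k s g A fun l => Exc k s g (T * A) fun l' => ψ (l ++ l').flatten) =
        Exc k s g A fun l => (fun W => Exc k (A * s) (gpow s A g) T fun Us =>
          ψ (W ++ Us.flatten)) l.flatten := by
      refine Exc_congr fun l _ => ?_
      have := ih fun W => ψ (l.flatten ++ W)
      simp only [List.flatten_append]
      exact this
    rw [h1]
    refine (Exc_cells_word s A g (fun W => Exc k (A * s) (gpow s A g) T fun Us =>
      ψ (W ++ Us.flatten))).trans ?_
    simp only [List.flatten_cons]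

lemma gpow_nonneg {s A : ℕ} {g : List (Fin k) → ℝ} (hg : ∀ w, w.length = s → 0 ≤ g w)
    {W : List (Fin k)} (hW : W.length = A * s) : 0 ≤ gpow s A g W := by
  unfold gpow
  apply List.prod_nonneg
  intro a ha
  obtain ⟨w, hw, rfl⟩ := List.mem_map.mp ha
  exact hg w ((isCells_cellsOf hW).2 w hw)

lemma isDens_gpow {s A : ℕ} {g : List (Fin k) → ℝ} (hg : IsDens k s g) :
    IsDens k (A * s) (gpow s A g) := by
  refine ⟨fun W hW => gpow_nonneg hg.nonneg hW, ?_⟩
  have := Exc_cells_word (k := k) s A g (fun _ => 1)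
  rw [Exc_const hg.one] at this
  simpa using this.symm

lemma gpow_le {s A : ℕ} {g : List (Fin k) → ℝ} {M : ℝ} (hM : 0 ≤ M)
    (hg : ∀ w, w.length = s → 0 ≤ g w) (hg' : ∀ w, w.length = s → g w ≤ M)
    {W : List (Fin k)} (hW : W.length = A * s) : gpow s A g W ≤ M ^ A := by
  induction A generalizing W with
  | zero => simp [gpow]
  | succ A ih =>
    have h1 : (A + 1) * s = A * s + s := by ring
    have hd : (W.drop s).length = A * s := by rw [List.length_drop]; omega
    have ht : (W.take s).length = s := by rw [List.length_take]; omega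
    have h2 : gpow s (A + 1) g W = g (W.take s) * gpow s A g (W.drop s) := by
      simp [gpow]
    rw [h2, pow_succ']
    exact mul_le_mul (hg' _ ht) (ih hd) (gpow_nonneg hg hd) hM

/-- regrouping with a prefix and a suffix -/
lemma Exc_reg (s A r T e : ℕ) (g : List (Fin k) → ℝ) (ψ : List (Fin k) → ℝ) :
    Exc k s g (r + (T * A + e)) (fun xs => ψ xs.flatten) =
      Exc k s g r fun x0 => Exc k (A * s) (gpow s A g) T fun Us => Exc k s g e fun tl =>
        ψ (x0.flatten ++ (Us.flatten ++ tl.flatten)) := by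
  rw [Exc_append]
  refine Exc_congr fun x0 _ => ?_
  rw [Exc_append]
  have h1 := Exc_regroup (k := k) s A g T
    (fun W => Exc k s g e fun tl => ψ (x0.flatten ++ (W ++ tl.flatten)))
  rw [← h1]
  simp only [List.flatten_append]

/-! ### sums over positions -/

lemma sum_pos (f : ℕ → ℝ) {A : ℕ} (hA : 1 ≤ A) (N : ℕ) :
    ∑ p ∈ Finset.range (N + 1 - A), f p =
      ∑ r ∈ Finset.range A, ∑ i ∈ Finset.range ((N - r) / A), f (r + i * A) := by
  rw [Finset.sum_sigma']
  refine Finset.sum_nbij' (fun p => (⟨p % A, p / A⟩ : Σ _ : ℕ, ℕ)) (fun x => x.1 + x.2 * A)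
    ?_ ?_ ?_ ?_ ?_
  · intro p hp
    rw [Finset.mem_range] at hp
    rw [Finset.mem_sigma, Finset.mem_range, Finset.mem_range]
    have h1 : p % A < A := Nat.mod_lt _ hA
    have h2 := Nat.mod_add_div p A
    refine ⟨h1, ?_⟩
    show p / A < (N - p % A) / A
    rw [Nat.lt_iff_add_one_le, Nat.le_div_iff_mul_le hA, add_mul, one_mul, mul_comm (p / A) A]
    omega
  · rintro ⟨r, i⟩ hx
    rw [Finset.mem_sigma, Finset.mem_range, Finset.mem_range] at hx
    obtain ⟨h1, h2⟩ := hx
    rw [Finset.mem_range]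
    show r + i * A < N + 1 - A
    have h2 : i < (N - r) / A := h2
    rw [Nat.lt_iff_add_one_le, Nat.le_div_iff_mul_le hA, add_mul, one_mul] at h2
    omega
  · intro p _
    show p % A + p / A * A = p
    rw [mul_comm]
    exact Nat.mod_add_div p A
  · rintro ⟨r, i⟩ hx
    rw [Finset.mem_sigma, Finset.mem_range, Finset.mem_range] at hx
    obtain ⟨h1, -⟩ := hx
    have h1 : r < A := h1
    have e1 : (r + i * A) % A = r := by
      rw [Nat.add_mul_mod_self_right]; exact Nat.mod_eq_of_lt h1
    have e2 : (r + i * A) / A = i := by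
      rw [Nat.add_mul_div_right _ _ hA, Nat.div_eq_of_lt h1, zero_add]
    show (⟨(r + i * A) % A, (r + i * A) / A⟩ : Σ _ : ℕ, ℕ) = ⟨r, i⟩
    rw [e1, e2]
  · intro p _
    show f p = f (p % A + p / A * A)
    rw [mul_comm, Nat.mod_add_div]

/-! ### windows of an optimal path -/

/-- real version of the superadditivity for many blocks -/
lemma zipL_le (xs ys : List (List (Fin k))) :
    (List.zipWith (fun x v => (L x v : ℝ)) xs ys).sum ≤ (L xs.flatten ys.flatten : ℝ) := by
  induction xs generalizing ys with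
  | nil => simp
  | cons x xs ih =>
    cases ys with
    | nil => simp
    | cons v vs =>
      simp only [List.zipWith_cons_cons, List.sum_cons, List.flatten_cons]
      have h1 : (L x v : ℝ) + L xs.flatten vs.flatten ≤ L (x ++ xs.flatten) (v ++ vs.flatten) := by
        exact_mod_cast L_append_ge x xs.flatten v vs.flatten
      linarith [ih vs]

lemma zipL_split (xs : List (List (Fin k))) (hxs : xs ≠ []) (y : List (Fin k)) :
    ∃ vs : List (List (Fin k)), vs.length = xs.length ∧ vs.flatten = y ∧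
      (L xs.flatten y : ℝ) = (List.zipWith (fun x v => (L x v : ℝ)) xs vs).sum := by
  obtain ⟨vs, h1, h2, h3⟩ := LCST.L_flatten_split xs hxs y
  refine ⟨vs, h1, h2, ?_⟩
  rw [h3]
  unfold LCST.sumL
  clear h3 h2 hxs
  induction xs generalizing vs with
  | nil => simp
  | cons x xs ih =>
    cases vs with
    | nil => simp
    | cons v vs =>
      simp only [List.zipWith_cons_cons, List.sum_cons]
      rw [Nat.cast_add, ih vs (by simpa using h1)]

/-- optimal windows for a prefix, `T` big cells and a suffix -/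
lemma split_windows (x0 tl : List (Fin k)) (Us : List (List (Fin k))) (y : List (Fin k)) :
    ∃ (v0 v1 : List (Fin k)) (ws : List (List (Fin k))), ws.length = Us.length ∧
      v0 ++ (ws.flatten ++ v1) = y ∧
      (L (x0 ++ (Us.flatten ++ tl)) y : ℝ) = L x0 v0 +
        (List.zipWith (fun x v => (L x v : ℝ)) Us ws).sum + L tl v1 := by
  obtain ⟨vs, h1, h2, h3⟩ := zipL_split (x0 :: (Us ++ [tl])) (by simp) y
  have h1' : vs.length = Us.length + 2 := by simp at h1; omega
  rcases vs with _ | ⟨v0, vs⟩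
  · simp at h1'
  have hne : vs ≠ [] := by
    rintro rfl
    simp at h1'
  obtain ⟨ws, v1, rfl⟩ : ∃ ws v1, vs = ws ++ [v1] :=
    ⟨vs.dropLast, vs.getLast hne, (List.dropLast_append_getLast hne).symm⟩
  have hws : ws.length = Us.length := by simp at h1'; omega
  refine ⟨v0, v1, ws, hws, by simpa using h2, ?_⟩
  rw [show x0 ++ (Us.flatten ++ tl) = (x0 :: (Us ++ [tl])).flatten by simp, h3]
  rw [List.zipWith_cons_cons, List.sum_cons, List.zipWith_append hws.symm, List.sum_append]
  simp
  ring

/-- the windows satisfy the equality -/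
lemma window_eq {x0 tl v0 v1 y : List (Fin k)} {Us ws : List (List (Fin k))}
    (hy : v0 ++ (ws.flatten ++ v1) = y)
    (hL : (L (x0 ++ (Us.flatten ++ tl)) y : ℝ) = L x0 v0 +
        (List.zipWith (fun x v => (L x v : ℝ)) Us ws).sum + L tl v1)
    {l₁ l₂ m₁ m₂ : List (List (Fin k))} {U v : List (Fin k)} (hU : Us = l₁ ++ U :: l₂)
    (hw : ws = m₁ ++ v :: m₂) (hlen : l₁.length = m₁.length) :
    L (x0 ++ (Us.flatten ++ tl)) y = L (x0 ++ l₁.flatten) (v0 ++ m₁.flatten) + L U v +
      L (l₂.flatten ++ tl) (m₂.flatten ++ v1) := by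
  apply le_antisymm
  · have h1 : (L (x0 ++ (Us.flatten ++ tl)) y : ℝ) ≤ L (x0 ++ l₁.flatten) (v0 ++ m₁.flatten) + L U v +
      L (l₂.flatten ++ tl) (m₂.flatten ++ v1) := by
      rw [hL, hU, hw, List.zipWith_append hlen, List.sum_append, List.zipWith_cons_cons,
        List.sum_cons]
      have e1 : (L x0 v0 : ℝ) + L l₁.flatten m₁.flatten ≤ L (x0 ++ l₁.flatten) (v0 ++ m₁.flatten) := by
        exact_mod_cast L_append_ge _ _ _ _
      have e2 : (L l₂.flatten m₂.flatten : ℝ) + L tl v1 ≤ L (l₂.flatten ++ tl) (m₂.flatten ++ v1) := by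
        exact_mod_cast L_append_ge _ _ _ _
      have e3 := zipL_le l₁ m₁
      have e4 := zipL_le l₂ m₂
      linarith
    exact_mod_cast h1
  · have hX : x0 ++ (Us.flatten ++ tl) = ((x0 ++ l₁.flatten) ++ U) ++ (l₂.flatten ++ tl) := by
      rw [hU]; simp
    have hY : y = ((v0 ++ m₁.flatten) ++ v) ++ (m₂.flatten ++ v1) := by
      rw [← hy, hw]; simp
    rw [hX, hY]
    have e1 := L_append_ge ((x0 ++ l₁.flatten) ++ U) (l₂.flatten ++ tl) ((v0 ++ m₁.flatten) ++ v)
      (m₂.flatten ++ v1)
    have e2 := L_append_ge (x0 ++ l₁.flatten) U (v0 ++ m₁.flatten) v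
    omega

end

end Pool.Agent.LCSV
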