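import Pool.Agent.Work.MP_bec1e1_FIN_h13.HUGA

/-!
# HUG, part B: windows, content union bound with free ends, deterministic core
-/

set_option autoImplicit false
set_option maxHeartbeats 400000

open Filter Topology
open scoped BigOperators

namespace Pool.Agent.LCSV

open Pool.Agent.LCSE

noncomputable section

variable {k : ℕ}

/-- there is no good window for the cells `u` -/
def NoWin (s A : ℕ) (ε : ℝ) (B : List (Fin k) → List (Fin k) → Prop)
    (x₁ u x₂ y : List (Fin k)) : Prop :=
  ¬ ∃ g w : ℕ, g + w ≤ y.length ∧ |(w : ℝ) - rho k * (A * s)| ≤ ε * s ∧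
    ¬ B u ((y.drop g).take w) ∧
    L (x₁ ++ u ++ x₂) y = L x₁ (y.take g) + L u ((y.drop g).take w) + L x₂ (y.drop (g + w))

/-- the content of the window `v` is atypical for `u` -/
def bad1 (s A j : ℕ) (η : ℝ) (Q : List (Fin k) → List (Fin k) → List (Fin k) → Prop)
    (u v : List (Fin k)) : Prop :=
  (v.length : ℝ) ≤ (rho k + 1) * (A * s) ∧
    Real.exp (-(η / 2 * s)) < Ex k (j * s) fun r => ind (Q r u v)

lemma Exc_three (s p A m : ℕ) (g : List (Fin k) → ℝ)
    (Φ : List (Fin k) → List (Fin k) → List (Fin k) → ℝ) :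
    (Exc k s g p fun xs₁ => Exc k s g A fun us => Exc k s g m fun xs₂ =>
      Φ xs₁.flatten us.flatten xs₂.flatten) =
    Exc k s g (p + (A + m)) fun xs => Φ (xs.flatten.take (p * s))
      ((xs.flatten.drop (p * s)).take (A * s)) (xs.flatten.drop ((p + A) * s)) := by
  rw [Exc_append]
  refine Exc_congr fun xs₁ h1 => ?_
  rw [Exc_append]
  refine Exc_congr fun us h2 => Exc_congr fun xs₂ _ => ?_
  have e1 := h1.flatten_length
  have e2 := h2.flatten_length
  simp only [List.flatten_append]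
  rw [List.take_left' e1, List.drop_left' e1, List.take_left' e2, ← List.append_assoc,
    List.drop_left' (by rw [List.length_append, e1, e2]; ring)]

lemma hug_step0 {s A j : ℕ} {g : List (Fin k) → ℝ} (hg : IsDens k s g)
    (hg2 : ∀ w, w.length = s → g w ≤ 2) {ε η : ℝ} (hε : ε ≤ 1) (hA : 1 ≤ A)
    (Q : List (Fin k) → List (Fin k) → List (Fin k) → Prop) (x₁ u x₂ y : List (Fin k)) :
    Exc k s g j (fun rs => ind (NoWin s A ε (fun u v => Q rs.flatten u v) x₁ u x₂ y)) ≤
      ind (NoWin s A ε (bad1 s A j η Q) x₁ u x₂ y) + 2 ^ j * Real.exp (-(η / 2 * s)) := by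
  by_cases h : NoWin s A ε (bad1 s A j η Q) x₁ u x₂ y
  · rw [ind_of h]
    have h1 := Exc_ind_le_one hg.nonneg hg.one j
      (fun rs => NoWin s A ε (fun u v => Q rs.flatten u v) x₁ u x₂ y)
    have h2 : 0 ≤ (2 : ℝ) ^ j * Real.exp (-(η / 2 * s)) := by positivity
    linarith
  · rw [ind_of_not h, zero_add]
    unfold NoWin at h
    rw [not_not] at h
    obtain ⟨g0, w0, h1, h2, h3, h4⟩ := h
    set v0 := (y.drop g0).take w0 with hv0
    have hlen : v0.length = w0 := by
      rw [hv0, List.length_take, List.length_drop]; omega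
    have hw : (w0 : ℝ) ≤ (rho k + 1) * (A * s) := by
      have h5 := (abs_le.mp h2).2
      have h6 : ε * (s : ℝ) ≤ 1 * s := mul_le_mul_of_nonneg_right hε (Nat.cast_nonneg s)
      have h7 : (1 : ℝ) * s ≤ A * s := by
        apply mul_le_mul_of_nonneg_right _ (Nat.cast_nonneg s)
        exact_mod_cast hA
      linarith
    have hq : (Ex k (j * s) fun r => ind (Q r u v0)) ≤ Real.exp (-(η / 2 * s)) := by
      by_contra hcon
      exact h3 ⟨by rw [hlen]; exact hw, not_le.mp hcon⟩
    calc Exc k s g j (fun rs => ind (NoWin s A ε (fun u v => Q rs.flatten u v) x₁ u x₂ y))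
        ≤ Exc k s g j (fun rs => ind (Q rs.flatten u v0)) := by
          refine Exc_mono hg.nonneg fun rs _ => ind_mono fun hN => ?_
          by_contra hQ
          exact hN ⟨g0, w0, h1, h2, hQ, h4⟩
      _ ≤ Exc k s (fun w => 2 * (fun _ => (1 : ℝ)) w) j (fun rs => ind (Q rs.flatten u v0)) :=
          Exc_dens_mono hg.nonneg (fun w hw => by simpa using hg2 w hw) fun _ _ => ind_nonneg _
      _ = 2 ^ j * Ex k (j * s) fun r => ind (Q r u v0) := by
          rw [Exc_dens_smul]
          congr 1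
          exact Exs_flatten s j fun r => ind (Q r u v0)
      _ ≤ _ := mul_le_mul_of_nonneg_left hq (by positivity)

/-- the event of the content union bound with free end windows -/
def CUe (T : ℕ) (c : ℝ) (bad : List (Fin k) → List (Fin k) → Prop) (Us : List (List (Fin k)))
    (y : List (Fin k)) : Prop :=
  ∃ (v0 v1 : List (Fin k)) (ws : List (List (Fin k))), ws.length = T ∧
    v0 ++ (ws.flatten ++ v1) = y ∧ c ≤ (List.zipWith (fun x v => ind (bad x v)) Us ws).sum

lemma cu_ends {D T b : ℕ} {g : List (Fin k) → ℝ} (hg : IsDens k D g)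
    (bad : List (Fin k) → List (Fin k) → Prop) (c : ℝ) {B : ℝ}
    (h : (Exc k D g (T + 2) fun xs => Ex k b fun y => ind (∃ vs : List (List (Fin k)),
      vs.length = T + 2 ∧ vs.flatten = y ∧
      c ≤ (List.zipWith (fun x v => ind (bad x v)) xs vs).sum)) ≤ B) :
    (Exc k D g T fun Us => Ex k b fun y => ind (CUe T c bad Us y)) ≤ B := by
  refine le_trans ?_ h
  set F : List (List (Fin k)) → ℝ := fun xs => Ex k b fun y => ind (∃ vs : List (List (Fin k)),
      vs.length = T + 2 ∧ vs.flatten = y ∧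
      c ≤ (List.zipWith (fun x v => ind (bad x v)) xs vs).sum) with hF
  set Fe : List (List (Fin k)) → ℝ := fun Us => Ex k b fun y => ind (CUe T c bad Us y) with hFe
  have key : ∀ (d0 d1 : List (Fin k)) (Us : List (List (Fin k))), IsCells D T Us →
      Fe Us ≤ F (d0 :: (Us ++ [d1])) := by
    intro d0 d1 Us hU
    refine Ex_mono fun y _ => ind_mono ?_
    rintro ⟨v0, v1, ws, h1, h2, h3⟩
    refine ⟨v0 :: (ws ++ [v1]), by simp [h1], by simpa using h2, h3.trans ?_⟩
    rw [List.zipWith_cons_cons, List.sum_cons, List.zipWith_append (by rw [hU.1, h1]),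
      List.sum_append]
    have e1 := ind_nonneg (bad d0 v0)
    have e2 := ind_nonneg (bad d1 v1)
    simp only [List.zipWith_cons_cons, List.zipWith_nil_left, List.sum_cons, List.sum_nil]
    linarith
  rw [show T + 2 = (T + 1) + 1 by ring, Exc_succ]
  have h1 : ∀ d0 : List (Fin k), Exc k D g T Fe ≤ Exc k D g (T + 1) fun l => F (d0 :: l) := by
    intro d0
    rw [Exc_succ']
    refine Exc_mono hg.nonneg fun Us hU => ?_
    calc Fe Us = Ex k D fun w => g w * Fe Us := by
          rw [Ex_mul_const, hg.one, one_mul]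
      _ ≤ _ := Ex_mono fun w hw => mul_le_mul_of_nonneg_left (key d0 w Us hU) (hg.nonneg w hw)
  calc Exc k D g T Fe = Ex k D fun w => g w * Exc k D g T Fe := by
        rw [Ex_mul_const, hg.one, one_mul]
    _ ≤ _ := Ex_mono fun w hw => mul_le_mul_of_nonneg_left (h1 w) (hg.nonneg w hw)

/-- the deterministic core -/
lemma hug_core (hP : PhiFacts k) {εD δ : ℝ} (hδ : 0 < δ)
    (hDir : ∀ (T : ℕ) (s : ℝ) (c l : Fin T → ℝ), 0 < s → (∀ i, 0 ≤ c i) →
      (∀ i, l i ≤ s ∧ l i ≤ c i) →
      (∑ i, ind (Phi k s (c i) + δ * s < l i)) ≤ δ * T →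
      al k * (s * T + ∑ i, c i) - δ * s * T ≤ ∑ i, l i → (rho k - δ) * s * T ≤ ∑ i, c i →
      (∑ i, ind (εD * s < |c i - rho k * s|)) ≤ εD * T ∧
      (∑ i, ind (l i < Phi k s (c i) - εD * s)) ≤ εD * T ∧
      (∑ i, ind (εD * s < |c i - rho k * s|) * c i) ≤ εD * s * T)
    {D T : ℕ} (hD0 : 0 < D) (hT0 : 0 < T) {x0 tl v0 v1 y : List (Fin k)}
    {Us ws : List (List (Fin k))} (hws : ws.length = T) (hU : IsCells D T Us)
    (hy : v0 ++ (ws.flatten ++ v1) = y)
    (hL : (L (x0 ++ (Us.flatten ++ tl)) y : ℝ) = L x0 v0 +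
        (List.zipWith (fun x v => (L x v : ℝ)) Us ws).sum + L tl v1)
    (hx0 : x0.length ≤ D) (htl : tl.length ≤ D) {M μ : ℝ} (hμ0 : 0 ≤ μ)
    (hM1 : (D : ℝ) * T ≤ M) (hM2 : M ≤ 2 * (D * T))
    (hlow : al k * (M + y.length) - μ * M ≤ L (x0 ++ (Us.flatten ++ tl)) y)
    (hbad : (List.zipWith (fun x v => ind (Phi k D (v.length : ℝ) + μ * D < (L x v : ℝ))) Us ws).sum
      ≤ 2 * μ * T)
    (hb : (rho k - δ / 4) * (D * T) ≤ y.length) (hT : 2 / (T : ℝ) ≤ μ)
    (hμ : μ ≤ al k * δ / 16) :
    (List.zipWith (fun _ v => ind (εD * D < |((v.length : ℕ) : ℝ) - rho k * D|)) Us ws).sum ≤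
      εD * T := by
  have hal0 : 0 < al k := by
    have := hP.gam_pos
    unfold al; linarith
  have hal1 : al k ≤ 1 := by
    have := hP.gam_lt
    have := hP.gam_pos
    unfold al; linarith
  have hμδ : μ ≤ δ / 16 := by
    have : al k * δ ≤ 1 * δ := mul_le_mul_of_nonneg_right hal1 hδ.le
    linarith
  have hDr : (0 : ℝ) < D := by exact_mod_cast hD0
  have hTr : (0 : ℝ) < T := by exact_mod_cast hT0
  have hUT : Us.length = T := hU.1
  have hwsT : ws.length = T := hws
  set c : Fin T → ℝ := fun i => ((ws.get (i.cast hwsT.symm)).length : ℝ) with hc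
  set l : Fin T → ℝ := fun i => (L (Us.get (i.cast hUT.symm)) (ws.get (i.cast hwsT.symm)) : ℝ)
    with hl
  have hUlen : ∀ i : Fin T, (Us.get (i.cast hUT.symm)).length = D := fun i =>
    hU.2 _ (List.get_mem _ _)
  have hlD : ∀ i, l i ≤ D := by
    intro i
    have := L_le_left (Us.get (i.cast hUT.symm)) (ws.get (i.cast hwsT.symm))
    rw [hUlen i] at this
    exact Nat.cast_le.mpr this
  have hlc : ∀ i, l i ≤ c i := fun i =>
    Nat.cast_le.mpr (L_le_right (Us.get (i.cast hUT.symm)) (ws.get (i.cast hwsT.symm)))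
  have hsl : (List.zipWith (fun x v => (L x v : ℝ)) Us ws).sum = ∑ i, l i :=
    TP.zipWith_sum_eq (fun x v => (L x v : ℝ)) T Us ws hUT hwsT
  have hsc : ∑ i, c i = (ws.flatten.length : ℝ) := by
    have h3 := TP.zipWith_length_sum Us ws (by rw [hUT, hwsT])
    rw [TP.zipWith_sum_eq (fun _ v => ((v.length : ℕ) : ℝ)) T Us ws hUT hwsT] at h3
    exact h3
  have hyl : (y.length : ℝ) = v0.length + ws.flatten.length + v1.length := by
    rw [← hy]; push_cast [List.length_append]; ring
  have hv0 : (0 : ℝ) ≤ v0.length := Nat.cast_nonneg _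
  have hv1 : (0 : ℝ) ≤ v1.length := Nat.cast_nonneg _
  have hbb : (∑ i, ind (Phi k D (c i) + μ * D < l i)) ≤ 2 * μ * T := by
    rw [TP.zipWith_sum_eq (fun x v => ind (Phi k D (v.length : ℝ) + μ * D < (L x v : ℝ))) T Us ws
      hUT hwsT] at hbad
    exact hbad
  have hends : (L x0 v0 : ℝ) + L tl v1 ≤ 2 * D := by
    have e1 : (L x0 v0 : ℝ) ≤ D := by exact_mod_cast (L_le_left x0 v0).trans hx0
    have e2 : (L tl v1 : ℝ) ≤ D := by exact_mod_cast (L_le_left tl v1).trans htl
    linarith
  have h2D : 2 * (D : ℝ) ≤ μ * (D * T) := by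
    rw [div_le_iff₀ hTr] at hT
    nlinarith
  have hμM : μ * M ≤ 2 * μ * (D * T) := by
    have := mul_le_mul_of_nonneg_left hM2 hμ0
    linarith
  have hl1 : al k * (M + y.length) - 3 * μ * (D * T) ≤ ∑ i, l i := by
    rw [← hsl]
    linarith
  have hl2 : ∑ i, l i ≤ al k * (D * T + ∑ i, c i) + 3 * μ * (D * T) := by
    have e1 : ∀ i, l i ≤ al k * (D + c i) + μ * D + D * ind (Phi k D (c i) + μ * D < l i) := by
      intro i
      have e2 := hP.line D (c i) hDr.le (Nat.cast_nonneg _)
      by_cases h : Phi k D (c i) + μ * D < l i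
      · rw [ind_of h]
        have e3 : l i ≤ D := hlD i
        have e4 : 0 ≤ μ * (D : ℝ) := by positivity
        have e5 : 0 ≤ al k * (D + c i) := by
          have : 0 ≤ c i := Nat.cast_nonneg _
          positivity
        linarith
      · rw [ind_of_not h]
        have := not_lt.mp h
        linarith
    calc ∑ i, l i ≤ ∑ i, (al k * (D + c i) + μ * D + D * ind (Phi k D (c i) + μ * D < l i)) :=
          Finset.sum_le_sum fun i _ => e1 i
      _ = al k * (D * T + ∑ i, c i) + μ * (D * T) +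
            D * ∑ i, ind (Phi k D (c i) + μ * D < l i) := by
          simp only [Finset.sum_add_distrib, ← Finset.mul_sum, Finset.sum_const,
            Finset.card_univ, Fintype.card_fin, nsmul_eq_mul]
          ring
      _ ≤ _ := by
          have := mul_le_mul_of_nonneg_left hbb hDr.le
          nlinarith
  have hE : (y.length : ℝ) - ∑ i, c i ≤ δ / 2 * (D * T) := by
    have e1 : al k * (M + y.length) ≤ al k * (D * T + ∑ i, c i) + 6 * μ * (D * T) := by linarith
    have e2 : al k * (D * T) ≤ al k * M := mul_le_mul_of_nonneg_left hM1 hal0.le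
    have e3 : al k * (y.length - ∑ i, c i) ≤ 6 * μ * (D * T) := by nlinarith
    have e4 : 6 * μ * ((D : ℝ) * T) ≤ al k * (δ / 2 * (D * T)) := by
      have : 6 * μ ≤ al k * (δ / 2) := by
        have : 0 ≤ al k * δ := by positivity
        linarith
      have := mul_le_mul_of_nonneg_right this (show 0 ≤ (D : ℝ) * T by positivity)
      linarith
    exact le_of_mul_le_mul_left (e3.trans e4) hal0
  have hcy : ∑ i, c i ≤ y.length := by
    rw [hsc, hyl]; linarith
  have hd := (hDir T D c l hDr (fun i => Nat.cast_nonneg _)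
    (fun i => ⟨hlD i, hlc i⟩)
    (by
      calc (∑ i, ind (Phi k D (c i) + δ * D < l i)) ≤ ∑ i, ind (Phi k D (c i) + μ * D < l i) := by
            refine Finset.sum_le_sum fun i _ => ind_mono fun h => ?_
            have : μ * (D : ℝ) ≤ δ * D := mul_le_mul_of_nonneg_right (by linarith) hDr.le
            linarith
        _ ≤ 2 * μ * T := hbb
        _ ≤ δ * T := mul_le_mul_of_nonneg_right (by linarith) hTr.le)
    (by
      have e1 : al k * (D * T + ∑ i, c i) ≤ al k * (M + y.length) :=
        mul_le_mul_of_nonneg_left (by linarith) hal0.le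
      have e2 : 3 * μ * ((D : ℝ) * T) ≤ δ * (D * T) :=
        mul_le_mul_of_nonneg_right (by linarith) (by positivity)
      linarith)
    (by
      have e1 : (rho k - δ) * D * T = (rho k - δ / 4) * (D * T) - 3 / 4 * (δ * (D * T)) := by ring
      have e2 : 0 ≤ δ * ((D : ℝ) * T) := by positivity
      rw [e1]
      linarith)).1
  rw [TP.zipWith_sum_eq (fun (_ : List (Fin k)) (v : List (Fin k)) =>
    ind (εD * D < |((v.length : ℕ) : ℝ) - rho k * D|)) T Us ws hUT hwsT]
  exact hd

end

end Pool.Agent.LCSV
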