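import Pool.Agent.Work.MP_bec1e1_FIN_h39.Interface
import Pool.Agent.Work.MP_bec1e1_lv_helper13.Conc
import Pool.Agent.Work.MP_bec1e1_lv_h99.EXC

/-!
# LOW: the LCS of the environment is near its maximal value
-/

set_option autoImplicit false
set_option maxHeartbeats 400000

open Filter Topology
open scoped BigOperators

namespace Pool.Agent.LCSV

open Pool.Agent.LCSE

noncomputable section

lemma tendsto_NN {k : ℕ} (hk : 2 ≤ k) (M : ℝ) : ∀ᶠ s : ℕ in atTop, M ≤ (NN k s : ℝ) := by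
  filter_upwards [eventually_ge_atTop ⌈M⌉₊] with s hs
  have h1 : s ≤ NN k s := by
    unfold NN
    calc s ≤ 4 * s := by omega
      _ ≤ 2 ^ (4 * s) := Nat.lt_two_pow_self.le
      _ ≤ k ^ (4 * s) := Nat.pow_le_pow_left hk _
  calc M ≤ (⌈M⌉₊ : ℝ) := Nat.le_ceil M
    _ ≤ (s : ℝ) := by exact_mod_cast hs
    _ ≤ _ := by exact_mod_cast h1

lemma tendsto_kpow {k : ℕ} (hk : 2 ≤ k) {ε : ℝ} (hε : 0 < ε) :
    ∀ᶠ s : ℕ in atTop, 1 / (k : ℝ) ^ s ≤ ε := by
  filter_upwards [eventually_ge_atTop ⌈1 / ε⌉₊] with s hs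
  have h1 : (s : ℝ) ≤ (k : ℝ) ^ s := by
    have : s ≤ k ^ s := (Nat.lt_two_pow_self.le).trans (Nat.pow_le_pow_left hk _)
    exact_mod_cast this
  have h2 : 1 / ε ≤ (k : ℝ) ^ s := by
    calc 1 / ε ≤ (⌈1 / ε⌉₊ : ℝ) := Nat.le_ceil _
      _ ≤ (s : ℝ) := by exact_mod_cast hs
      _ ≤ _ := h1
  have h3 : (0 : ℝ) < (k : ℝ) ^ s := by
    have : 0 < k := by omega
    positivity
  rw [div_le_iff₀ hε] at h2
  rw [div_le_iff₀ h3]
  linarith

lemma low_thm_mul {k : ℕ} (hk : 2 ≤ k) (s : ℕ) {θ : ℝ} (hθ : θ ≤ thm k s) :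
    θ * (k : ℝ) ^ s ≤ 1 / 2 := by
  have h3 : (0 : ℝ) < (k : ℝ) ^ s := by
    have : 0 < k := by omega
    positivity
  unfold thm at hθ
  calc θ * (k : ℝ) ^ s ≤ 1 / (2 * (k : ℝ) ^ s) * (k : ℝ) ^ s :=
        mul_le_mul_of_nonneg_right hθ h3.le
    _ = 1 / 2 := by field_simp

lemma low_thm_le_one {k : ℕ} (hk : 2 ≤ k) (s : ℕ) {θ : ℝ} (hθ : θ ≤ thm k s) : θ ≤ 1 := by
  have h3 : (1 : ℝ) ≤ (k : ℝ) ^ s := by
    apply one_le_pow₀
    have : 1 ≤ k := by omega
    exact_mod_cast this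
  have : thm k s ≤ 1 := by
    unfold thm
    rw [div_le_one (by positivity)]
    linarith
  linarith

lemma isDens_gth {k : ℕ} (hk : 2 ≤ k) (s : ℕ) (o : Fin k) {θ : ℝ} (h0 : 0 ≤ θ)
    (hθ : θ ≤ thm k s) : IsDens k s (gth k s o θ) := by
  refine ⟨fun w _ => gth_nonneg h0 ?_ w, Ex_gth (by omega) s o θ⟩
  have := low_thm_mul hk s hθ
  linarith

lemma gth_le_two {k : ℕ} (hk : 2 ≤ k) (s : ℕ) (o : Fin k) {θ : ℝ} (h0 : 0 ≤ θ)
    (hθ : θ ≤ thm k s) (w : List (Fin k)) : gth k s o θ w ≤ 2 := by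
  have h1 := gth_le (s := s) (o := o) h0 w
  have h2 := low_thm_le_one hk s hθ
  linarith

/-- the shape function of the environment is near its maximal value -/
lemma Phi_env {k : ℕ} {C p q Pl Pu : ℝ} (w : World k C p q Pl Pu) {s N J : ℕ}
    (hb1 : NN k s * s ≤ bb k s) (hb2 : (bb k s : ℝ) ≤ rho k * (NN k s * s))
    (h1 : NN k s ≤ N + J) (h2 : N ≤ NN k s + J) :
    al k * (N * s + bb k s) - J * s ≤ Phi k ((N * s : ℕ) : ℝ) (bb k s) := by
  have hP := w.phi
  have hal : al k ≤ 1 := by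
    have := hP.gam_lt
    have := hP.gam_pos
    unfold al; linarith
  have hal0 : 0 ≤ al k := by
    have := hP.gam_pos
    unfold al; linarith
  have hrho := hP.rho_one
  have hs0 : (0 : ℝ) ≤ s := Nat.cast_nonneg s
  have hb1r : (NN k s : ℝ) * s ≤ bb k s := by exact_mod_cast hb1
  have hflat : Flat k ((NN k s : ℝ) * s) (bb k s) := by
    rw [hP.flat_iff _ _ (by positivity) (Nat.cast_nonneg _)]
    refine ⟨hb2, ?_⟩
    have : (bb k s : ℝ) ≤ rho k * bb k s := by
      have h3 : (0 : ℝ) ≤ bb k s := Nat.cast_nonneg _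
      nlinarith
    linarith
  unfold Flat at hflat
  have h1r : (NN k s : ℝ) ≤ N + J := by exact_mod_cast h1
  have h2r : (N : ℝ) ≤ NN k s + J := by exact_mod_cast h2
  have hJs : 0 ≤ (J : ℝ) * s := by positivity
  push_cast
  rcases le_total (NN k s) N with h | h
  · have hr : (NN k s : ℝ) ≤ N := by exact_mod_cast h
    have h3 : Phi k ((NN k s : ℝ) * s) (bb k s) ≤ Phi k ((N : ℝ) * s) (bb k s) :=
      hP.mono _ _ _ _ (mul_le_mul_of_nonneg_right hr hs0) le_rfl
    have h4 : al k * ((N : ℝ) * s - NN k s * s) ≤ 1 * ((N : ℝ) * s - NN k s * s) :=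
      mul_le_mul_of_nonneg_right hal (by nlinarith)
    have h5 : (N : ℝ) * s - NN k s * s ≤ J * s := by nlinarith
    linarith
  · have hr : (N : ℝ) ≤ NN k s := by exact_mod_cast h
    have h3 := hP.lip ((N : ℝ) * s) (bb k s) ((NN k s : ℝ) * s - N * s) (by positivity)
      (Nat.cast_nonneg _) (by nlinarith)
    rw [add_sub_cancel] at h3
    have h4 : al k * (N * s + bb k s) ≤ al k * (NN k s * s + bb k s) :=
      mul_le_mul_of_nonneg_left (by nlinarith) hal0
    have h5 : (NN k s : ℝ) * s - N * s ≤ J * s := by nlinarith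
    linarith

lemma exp_neg_le_inv {x : ℝ} (hx : 0 < x) : Real.exp (-x) ≤ 1 / x := by
  rw [Real.exp_neg, ← one_div]
  apply one_div_le_one_div_of_le hx
  linarith [Real.add_one_le_exp x]

theorem stmt_LOW (hBB : Stmt_BB) (hT : Stmt_TILT) (hMGF : Stmt_MGF) (hMCD : Stmt_MCD) :
    Stmt_LOW := by
  intro k C p q Pl Pu w ε hε J
  have hk2 := w.hk
  have hk : 0 < k := by omega
  have hkr : (0 : ℝ) < k := by exact_mod_cast hk
  have hP := w.phi
  have hC := w.C0
  set t : ℝ := ε / 2 with ht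
  have ht0 : 0 < t := by positivity
  set M : ℝ := 8 * J / ε + 64 * (C ^ 2 * (1 + 2 * k)) / ε ^ 2 + 4 / (t ^ 2 * ε) +
    8 * k / (t ^ 2 * ε) + 1 with hM
  have hM0 : 0 < M := by positivity
  filter_upwards [hBB k hk2 hP 1 one_pos, eventually_ge_atTop 1, tendsto_NN hk2 (2 * J + 2 * M),
    tendsto_kpow hk2 (show 0 < ε / 8 by positivity)] with s hb hs1 hNN hkp
  obtain ⟨hb1, hb2, -, -, -⟩ := hb
  intro o θ h0 hθ N h1 h2
  have hs : (1 : ℝ) ≤ s := by exact_mod_cast hs1
  have hs0 : (0 : ℝ) < s := by linarith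
  have h1r : (NN k s : ℝ) ≤ N + J := by exact_mod_cast h1
  have h2r : (N : ℝ) ≤ NN k s + J := by exact_mod_cast h2
  have hN2 : (NN k s : ℝ) ≤ 2 * N := by linarith
  have hNM : M ≤ N := by linarith
  have hN0 : (0 : ℝ) < N := by linarith
  have hNpos : 0 < N := by exact_mod_cast hN0
  have hbk : (bb k s : ℝ) ≤ 2 * k * (N * s) := by
    refine hb2.trans ?_
    have h3 : rho k * (NN k s * s) ≤ k * (NN k s * s) :=
      mul_le_mul_of_nonneg_right hP.rho_lt.le (by positivity)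
    have h4 : (k : ℝ) * (NN k s * s) ≤ k * (2 * N * s) := by
      apply mul_le_mul_of_nonneg_left _ hkr.le
      exact mul_le_mul_of_nonneg_right hN2 hs0.le
    linarith
  have hbpos : 0 < bb k s := by
    have h3 : 0 < NN k s * s := by
      have : 0 < NN k s := by unfold NN; positivity
      positivity
    omega
  have hbr : (0 : ℝ) < bb k s := by exact_mod_cast hbpos
  have hg := isDens_gth hk2 s o h0 hθ
  have hco := TP.conc hMGF hMCD hk (show 0 < s by omega) hbpos hg ht0 hNpos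
  -- the mean
  have hmean : al k * (N * s + bb k s) - ε * (N * s) ≤
      (Exc k s (gth k s o θ) N fun xs => Ex k (bb k s) fun y => (L xs.flatten y : ℝ)) -
        t * s * N := by
    have e1 := (abs_le.mp (hT k s N (bb k s) o θ hk2 h0 hθ)).1
    unfold EN at e1
    have e2 := w.DEF (N * s) (bb k s)
    have e3 := Phi_env w hb1 hb2 h1 h2
    have e4 : C * √(((N * s : ℕ) : ℝ) + bb k s) ≤ ε / 8 * (N * s) := by
      have e5 : C * √(((N * s : ℕ) : ℝ) + bb k s) ≤ C * √((1 + 2 * k) * (N * s)) := by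
        apply mul_le_mul_of_nonneg_left _ hC.le
        apply Real.sqrt_le_sqrt
        push_cast
        linarith
      refine e5.trans ?_
      rw [← Real.sqrt_sq hC.le, ← Real.sqrt_mul (sq_nonneg _)]
      apply Real.sqrt_le_iff.mpr
      refine ⟨by positivity, ?_⟩
      have e6 : 64 * (C ^ 2 * (1 + 2 * k)) / ε ^ 2 ≤ N := by
        refine le_trans ?_ hNM
        rw [hM]
        have : 0 ≤ 8 * (J : ℝ) / ε := by positivity
        have : 0 < 4 / (t ^ 2 * ε) := by positivity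
        have : 0 < 8 * k / (t ^ 2 * ε) := by positivity
        linarith
      rw [div_le_iff₀ (by positivity)] at e6
      have e7 : (N : ℝ) * ε ^ 2 * 1 ≤ N * ε ^ 2 * s := mul_le_mul_of_nonneg_left hs (by positivity)
      have e8 : C ^ 2 * (1 + 2 * k) ≤ N * ε ^ 2 * s / 64 := by linarith
      calc C ^ 2 * ((1 + 2 * k) * ((N : ℝ) * s)) = C ^ 2 * (1 + 2 * k) * (N * s) := by ring
        _ ≤ N * ε ^ 2 * s / 64 * (N * s) := mul_le_mul_of_nonneg_right e8 (by positivity)
        _ = _ := by ring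
    have e5 : (N : ℝ) * s / (k : ℝ) ^ s ≤ ε / 8 * (N * s) := by
      have : (N : ℝ) * s / (k : ℝ) ^ s = 1 / (k : ℝ) ^ s * (N * s) := by ring
      rw [this]
      exact mul_le_mul_of_nonneg_right hkp (by positivity)
    have e6 : (J : ℝ) * s ≤ ε / 8 * (N * s) := by
      have e7 : 8 * (J : ℝ) / ε ≤ N := by
        refine le_trans ?_ hNM
        rw [hM]
        have : 0 < 64 * (C ^ 2 * (1 + 2 * k)) / ε ^ 2 := by positivity
        have : 0 < 4 / (t ^ 2 * ε) := by positivity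
        have : 0 < 8 * k / (t ^ 2 * ε) := by positivity
        linarith
      rw [div_le_iff₀ hε] at e7
      nlinarith
    have e7 : t * s * N = ε / 2 * (N * s) := by rw [ht]; ring
    rw [e7]
    nlinarith
  have hb3 : Real.exp (-(t ^ 2 * N / 2)) ≤ ε / 2 := by
    refine (exp_neg_le_inv (by positivity)).trans ?_
    have e1 : 4 / (t ^ 2 * ε) ≤ N := by
      refine le_trans ?_ hNM
      rw [hM]
      have : 0 < 64 * (C ^ 2 * (1 + 2 * k)) / ε ^ 2 := by positivity
      have : 0 ≤ 8 * (J : ℝ) / ε := by positivity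
      have : 0 < 8 * k / (t ^ 2 * ε) := by positivity
      linarith
    rw [div_le_iff₀ (by positivity)] at e1
    rw [div_le_iff₀ (by positivity)]
    nlinarith
  have hb4 : Real.exp (-(t ^ 2 * s ^ 2 * N ^ 2 / (2 * (bb k s : ℝ)))) ≤ ε / 2 := by
    refine (exp_neg_le_inv (by positivity)).trans ?_
    have e1 : 8 * k / (t ^ 2 * ε) ≤ N := by
      refine le_trans ?_ hNM
      rw [hM]
      have : 0 < 64 * (C ^ 2 * (1 + 2 * k)) / ε ^ 2 := by positivity
      have : 0 ≤ 8 * (J : ℝ) / ε := by positivity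
      have : 0 < 4 / (t ^ 2 * ε) := by positivity
      linarith
    rw [div_le_iff₀ (by positivity)] at e1
    rw [one_div_div, div_le_iff₀ (by positivity)]
    have e2 : (N : ℝ) * (t ^ 2 * ε) * 1 ≤ N * (t ^ 2 * ε) * s :=
      mul_le_mul_of_nonneg_left hs (by positivity)
    have e3 : 8 * k ≤ N * (t ^ 2 * ε) * s := by linarith
    calc 2 * (bb k s : ℝ) ≤ 2 * (2 * k * (N * s)) := by linarith
      _ = 8 * k * (N * s) / 2 := by ring
      _ ≤ N * (t ^ 2 * ε) * s * (N * s) / 2 := by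
          have := mul_le_mul_of_nonneg_right e3 (show (0 : ℝ) ≤ N * s by positivity)
          linarith
      _ = _ := by ring
  calc (Exc k s (gth k s o θ) N fun xs => Ex k (bb k s) fun y =>
      ind ((L xs.flatten y : ℝ) < al k * (N * s + bb k s) - ε * (N * s)))
      ≤ Exc k s (gth k s o θ) N fun xs => Ex k (bb k s) fun y =>
        ind ((L xs.flatten y : ℝ) ≤ (Exc k s (gth k s o θ) N fun xs => Ex k (bb k s) fun y =>
          (L xs.flatten y : ℝ)) - t * s * N) := by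
        refine Exc_mono hg.nonneg fun xs _ => Ex_mono fun y _ => ind_mono fun h => ?_
        linarith
    _ ≤ _ := hco
    _ ≤ ε := by linarith

end

end Pool.Agent.LCSV
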